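import Pool.Agent.Lib.MP_2fd4e2_co.Lip.Inscribe

/-!
Isosceles trapezoids inscribed in closed curves made of two Lipschitz graphs.

Let `T` be an isosceles trapezoid with base angle `φ ≤ π / 2` (rectangles included) and let the
curve `J` be the union of the graphs over `[a, b]` of two functions `f ≤ g`, equal at the ends
only, with Lipschitz constants `A`, `B` such that `arctan A + arctan B < φ`. Then some copy of `T`
under an orientation preserving similarity is inscribed in `J`.

Proof. Extend `f` and `g` by constants. For every point `w` there is exactly one trapezoid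
`w = z1, z2, z3, z4` similar to `T` with `z2` on the graph of `f` and `z4` on the graph of `g`, and
`G : w ↦ z3` is a bi-Lipschitz homeomorphism of the plane. For `w` on the graph of `f` the four
vertices run through four curves and the sums `∑ Δx (y + y') / 2` satisfy
`T3 - T4 = l (T2 - T1)`, `l` the ratio of the bases; so the integral of `y dx` over the third curve
is that of `g`. Crossing numbers of inscribed polygons show that this integral is the area of the
image under `G` of the points above the graph of `f`, in a box; if the third curve did not meet the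
graph of `g` over `(a, b)` then this image and the set of points below the graph of `g` would be
nested and would have different areas.
-/

set_option autoImplicit false

namespace Pool.Agent.Results.MP_2fd4e2_co.LipschitzGraphs

open Pool.Agent.LipTrap Complex

theorem result (φ k : ℝ) (hφ : 0 < φ) (hφ' : φ ≤ Real.pi / 2) (hk : 0 < k)
    (hk' : 2 * k * Real.cos φ < 1) (A B : NNReal)
    (hAB : Real.arctan A + Real.arctan B < φ) (a b : ℝ) (hab : a < b) (f g : ℝ → ℝ)
    (hf : LipschitzOnWith A f (Set.Icc a b)) (hg : LipschitzOnWith B g (Set.Icc a b))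
    (ha : f a = g a) (hb : f b = g b) (hlt : ∀ x ∈ Set.Ioo a b, f x < g x) :
    ∃ α β : ℂ, α ≠ 0 ∧
      ∀ z ∈ ({0, 1, 1 - k * exp (-(φ * I)), k * exp (φ * I)} : Set ℂ),
        α * z + β ∈ {w : ℂ | w.re ∈ Set.Icc a b ∧ (w.im = f w.re ∨ w.im = g w.re)} := by
  have hA : (0 : ℝ) ≤ A := A.coe_nonneg
  have hB : (0 : ℝ) ≤ B := B.coe_nonneg
  have hpi := Real.pi_pos
  have hcos : 0 ≤ Real.cos φ := Real.cos_nonneg_of_mem_Icc ⟨by linarith, hφ'⟩
  have hsin : 0 < Real.sin φ := Real.sin_pos_of_pos_of_lt_pi hφ (by linarith)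
  have hc := trig_cond hφ' hA hB hAB
  have hf' : ∀ x ∈ Set.Icc a b, ∀ y ∈ Set.Icc a b, |f x - f y| ≤ A * |x - y| := by
    intro x hx y hy
    have := hf.dist_le_mul x hx y hy
    rwa [Real.dist_eq, Real.dist_eq] at this
  have hg' : ∀ x ∈ Set.Icc a b, ∀ y ∈ Set.Icc a b, |g x - g y| ≤ B * |x - y| := by
    intro x hx y hy
    have := hg.dist_le_mul x hx y hy
    rwa [Real.dist_eq, Real.dist_eq] at this
  obtain ⟨α, β, hα, h0, h1, h2, h3⟩ := inscribed (f := f) (g := g) (A := A) (B := B)
    (p := k * Real.cos φ) (q := k * Real.sin φ) (a := a) (b := b) hA hB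
    (mul_nonneg hk.le hcos) (mul_pos hk hsin) (by linarith)
    (by
      calc k * Real.cos φ * ((A : ℝ) + B) = k * (Real.cos φ * ((A : ℝ) + B)) := by ring
        _ < k * (Real.sin φ * (1 - (A : ℝ) * B)) := mul_lt_mul_of_pos_left hc hk
        _ = k * Real.sin φ * (1 - (A : ℝ) * B) := by ring) hab hf' hg' ha hb hlt
  have e1 : (k : ℂ) * exp (φ * I) = ⟨k * Real.cos φ, k * Real.sin φ⟩ := by
    rw [Complex.exp_mul_I]
    apply Complex.ext
    · simp [Complex.sin_ofReal_im, Complex.cos_ofReal_re]
    · simp [Complex.sin_ofReal_re, Complex.cos_ofReal_im]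
  have e2 : (1 : ℂ) - k * exp (-(φ * I)) = 1 - ⟨k * Real.cos φ, -(k * Real.sin φ)⟩ := by
    congr 1
    rw [show -((φ : ℂ) * I) = -(φ : ℂ) * I by ring, Complex.exp_mul_I, Complex.cos_neg,
      Complex.sin_neg]
    apply Complex.ext
    · simp [Complex.sin_ofReal_im, Complex.cos_ofReal_re]
    · simp [Complex.sin_ofReal_re, Complex.cos_ofReal_im]
  refine ⟨α, β, hα, ?_⟩
  intro z hz
  rw [e1, e2] at hz
  simp only [Set.mem_insert_iff, Set.mem_singleton_iff] at hz
  rcases hz with rfl | rfl | rfl | rfl
  · exact h0
  · exact h1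
  · exact h2
  · exact h3

end Pool.Agent.Results.MP_2fd4e2_co.LipschitzGraphs
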