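import Pool.Agent.Lib.MP_2fd4e2_co.Sym.Trap

/-!
Isosceles trapezoids inscribed in line-symmetric Jordan curves.

Let the Jordan curve `J` be symmetric about the real axis, let `b` be its largest real point and
let `T` be an isosceles trapezoid with base angle `φ < π / 2`. If `J` has a non-real point `z` with
`Re z + tan φ |Im z| ≥ b` then `T` is inscribed in `J` (and so, by a rotation by `π`, if
`Re z - tan φ |Im z|` is at most the smallest real point of `J`). Hence a line-symmetric Jordan
curve without inscribed copies of `T` lies, but for its two points on the axis, in the interior of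
the rhombus that has these two points as vertices, with angles `π - 2 φ` there.

Proof. Let `c` be an arc of `J` in the upper half plane, with real ends, that contains such a
point, `0 < l < 1` the ratio of the bases and `M` the contraction by the factor `l` towards the
real axis along the lines `x + y tan φ = const`. If `M z = w` for two points `z`, `w` of `c` then
`z`, `w` and the conjugate points are the vertices of a copy of `T`. Otherwise let `U` be the
component of the complement of `c` and its base segment that contains the points just above the
segment. The point `z` of `c` where `x + y tan φ` is largest has its image `M z` on the supporting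
line, outside `U`, so `M c` does not meet `U`; hence `U` is contained in the corresponding component
for `M c`, which is `M U`. So `U` is invariant under the inverse of `M` and contains points of
arbitrary height, but `U` is bounded.
-/

set_option autoImplicit false

namespace Pool.Agent.Results.MP_2fd4e2_co.SymmetricCurves

open Complex

theorem result (φ k : ℝ) (hφ : 0 < φ) (hφ' : φ < Real.pi / 2) (hk : 0 < k)
    (hk' : 2 * k * Real.cos φ < 1) (γ : Circle → ℂ) (hγ : Continuous γ)
    (hinj : Function.Injective γ)
    (hsym : ∀ z ∈ Set.range γ, (starRingEnd ℂ) z ∈ Set.range γ)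
    (z₀ : ℂ) (hz₀ : z₀ ∈ Set.range γ) (him : z₀.im ≠ 0)
    (hX : (∀ x : ℝ, (x : ℂ) ∈ Set.range γ → x ≤ z₀.re + Real.tan φ * |z₀.im|) ∨
      (∀ x : ℝ, (x : ℂ) ∈ Set.range γ → z₀.re - Real.tan φ * |z₀.im| ≤ x)) :
    ∃ α β : ℂ, α ≠ 0 ∧
      ∀ z ∈ ({0, 1, 1 - k * exp (-(φ * I)), k * exp (φ * I)} : Set ℂ),
        α * z + β ∈ Set.range γ :=
  Pool.Agent.SymTrap.trap_sym φ k hφ hφ' hk hk' γ hγ hinj hsym z₀ hz₀ him hX

end Pool.Agent.Results.MP_2fd4e2_co.SymmetricCurves
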