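import Pool.Agent.Lib.MP_2fd4e2_co.Typ.Final

/-!
Typical Jordan curves and inscribed quadrilaterals.

The space of parametrised Jordan curves is the set of injective continuous maps of the circle
`ℝ / ℤ` to the plane, with the metric of uniform convergence; it is a Baire space.

Proof. Four arcs that run close to four straight segments, in general directions, through the
vertices of a quadrilateral `v` contain a similar copy of every quadrilateral close to `v`: the
conditions on the copy are a system of four real equations, close to an invertible linear system,
and Brouwer's fixed point theorem applies. Near any point of a Jordan curve there is room, after a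
change of the curve that is small in the uniform metric, for a path that passes through four such
segments in any prescribed order and rejoins the curve: the curve is replaced near the point by a
polygonal path inside a small disc. So for every `v` and every arc `(a, b)` of the circle the
curves all of whose neighbours contain, on this arc and in this order, similar copies of all
quadrilaterals in a neighbourhood `U(v)` of `v` (independent of the arc) form a dense open set.
Countably many `v` (Lindelof) and countably many arcs suffice.
-/

set_option autoImplicit false

namespace Pool.Agent.Results.MP_2fd4e2_co.TypicalCurves

open Set Topology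

theorem result :
    (∀ v : Fin 4 → ℂ, Function.Injective v →
      IsNowhereDense {f : {f : C(UnitAddCircle, ℂ) // Function.Injective f} |
        ∀ α β : ℂ, α ≠ 0 → ∃ i, α * v i + β ∉ range f.1}) ∧
    ∃ R : Set {f : C(UnitAddCircle, ℂ) // Function.Injective f},
      R ∈ residual {f : C(UnitAddCircle, ℂ) // Function.Injective f} ∧ Dense R ∧
      ∀ f ∈ R, ∀ a b : ℝ, a < b → ∀ v : Fin 4 → ℂ, Function.Injective v →
        ∃ α β : ℂ, α ≠ 0 ∧ ∃ t : Fin 4 → ℝ, StrictMono t ∧
          ∀ i, t i ∈ Ioo a b ∧ f.1 (t i : UnitAddCircle) = α * v i + β :=
  Pool.Agent.Typ.typical

end Pool.Agent.Results.MP_2fd4e2_co.TypicalCurves
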