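import Pool.Agent.Lib.MP_2fd4e2_co.Uni.Final

/-!
Isosceles trapezoids inscribed in an arc closed up by an arbitrary path, wild up to the corners.

`T` is the isosceles trapezoid with vertices `0`, `1`, `1 + l e^(i φ)`, `-l e^(-i φ)`: its bases
are `1` and `1 + 2 l cos φ`, so that every isosceles trapezoid and every rectangle occurs, with
either base as the side `0 1`. The arc `G` from `P = G 0` to `Q = G 1` is simple; near each of its
points it is the graph of a Lipschitz function with the constant `A`, in orthogonal coordinates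
depending on the point, `2 arctan A < φ` and `2 arctan A < π - φ`, and near `P` and `Q` the
constant is at most `B`, where `2 arctan B` is less than the angle between a leg and a diagonal of
`T` and less than the supplement of this angle. For a regular arc of class `C^1` any `A`, `B > 0`
will do. The path `g` leads from `P` to `Q` and is arbitrary, except that

* it does not meet `G` except at `P` and `Q`;
* the two curves described by the free end of the leg of `T` at `P` (at `Q`), when the other
  vertex of the side `0 1` of `T` runs through `G`, meet `G` and `g` in `P` (in `Q`) only;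
* near `P` and near `Q` it runs between `G` and this leg curve: its points there are the fourth
  (third) vertices of small copies of `T` with the side `0 1` on `G`, off `P` (off `Q`).

Then `T` is inscribed in the closed curve made of `G` and `g`, with its side `0 1` on `G`.

Proof. There is a continuous `h` which vanishes exactly on `J = G ∪ g` and whose sign near each
point of `G` is negative to the left and positive to the right of `G` (crossing numbers of
polygons). For `t < u` let `v3`, `v4` be the other vertices of the copy of `T` with the side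
`G t`, `G u`. Suppose that `h(v3)` and `h(v4)` never vanish together. They are negative when `u` is
close to `t` and both are off the ends; `h(v4) > 0` for `t = 0` and `h(v3) > 0` for `u = 1`. It
suffices to find, in the triangle of pairs, a path from the diagonal to the side `t = 0` on which
never `h(v4) ≤ 0 ≤ h(v3)`, and a similar path at the other end: then the Poincare-Miranda theorem,
applied to a square mapped to the triangle, gives a contradiction.

Near `P` the maps `V3`, `V4` from the pairs to the third and the fourth vertex extend to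
homeomorphisms of the plane which agree on the diagonal and have the same Jacobian, because the
side `0 1` is seen from both vertices under the same angle. Let `D` be the component, adjacent to
the diagonal, of the set of the pairs with `h(v3) < 0`, `t > 0` and `v3` below a line which leaves
`P` to the left less steeply than the leg. If `h(v4)` had no zero in `D`, then `V4(D)` would be
contained in `V3(D)`: it has the same area, hence both would be equal up to a null set, but `V4`
takes all pairs further to the left than `V3`. So some point of `D` lies on the lift of `g` by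
`V4`. The desired path starts at the diagonal, runs in `D` to this point, then along the lift of
`g`, where `h(v4) = 0` and `h(v3) < 0`, and finally to the side `t = 0` with `h(v4) > 0`.
-/

set_option autoImplicit false

namespace Pool.Agent.Results.MP_2fd4e2_co.WildClosure

open Complex Set Filter Topology

theorem result (φ l : ℝ) (hφ : 0 < φ) (hφ' : φ < Real.pi) (hl : 0 < l)
    (hl' : 0 < 1 + 2 * l * Real.cos φ) (A B : ℝ) (hA1 : 2 * Real.arctan A < φ)
    (hA2 : 2 * Real.arctan A < Real.pi - φ) (hB0 : 0 ≤ B) (hBA : B ≤ A)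
    (hB : 2 * B * |l + Real.cos φ| < (1 - B ^ 2) * Real.sin φ)
    (G : ℝ → ℂ) (hG : ContinuousOn G (Icc 0 1)) (hinj : InjOn G (Icc 0 1))
    (hloc : ∀ t₀ ∈ Icc (0 : ℝ) 1, ∃ e : ℂ, e ≠ 0 ∧ ∃ ε > 0, ∀ t ∈ Icc (0 : ℝ) 1,
      ∀ u ∈ Icc (0 : ℝ) 1, |t - t₀| < ε → |u - t₀| < ε → t < u →
      0 < ((G u - G t) / e).re ∧ |((G u - G t) / e).im| ≤ A * ((G u - G t) / e).re)
    (hend : ∀ t₀ ∈ ({0, 1} : Set ℝ), ∃ e : ℂ, e ≠ 0 ∧ ∃ ε > 0, ∀ t ∈ Icc (0 : ℝ) 1,
      ∀ u ∈ Icc (0 : ℝ) 1, |t - t₀| < ε → |u - t₀| < ε → t < u →
      0 < ((G u - G t) / e).re ∧ |((G u - G t) / e).im| ≤ B * ((G u - G t) / e).re)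
    (g : ℝ → ℂ) (hg : ContinuousOn g (Icc 0 1)) (h0 : g 0 = G 0) (h1 : g 1 = G 1)
    (hav : ∀ s ∈ Ioo (0 : ℝ) 1, g s ∉ G '' Icc 0 1)
    (hlegP : ∀ u ∈ Ioc (0 : ℝ) 1,
      G 0 - l * exp (-(φ * I)) * (G u - G 0) ∉ G '' Icc 0 1 ∪ g '' Icc 0 1)
    (hlegQ : ∀ t ∈ Ico (0 : ℝ) 1,
      G 1 + l * exp (φ * I) * (G 1 - G t) ∉ G '' Icc 0 1 ∪ g '' Icc 0 1)
    (hP : ∀ δ > 0, ∀ᶠ s in 𝓝[>] (0 : ℝ), ∃ t u : ℝ, 0 < t ∧ t < u ∧ u < δ ∧
      g s = G t - l * exp (-(φ * I)) * (G u - G t))
    (hQ : ∀ δ > 0, ∀ᶠ s in 𝓝[<] (1 : ℝ), ∃ t u : ℝ, 1 - δ < t ∧ t < u ∧ u < 1 ∧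
      g s = G u + l * exp (φ * I) * (G u - G t)) :
    ∃ α β : ℂ, α ≠ 0 ∧ β ∈ G '' Icc 0 1 ∧ α + β ∈ G '' Icc 0 1 ∧
      α * (1 + l * exp (φ * I)) + β ∈ G '' Icc 0 1 ∪ g '' Icc 0 1 ∧
      α * (-(l * exp (-(φ * I)))) + β ∈ G '' Icc 0 1 ∪ g '' Icc 0 1 :=
  Pool.Agent.UniTrap.inscribed_closure φ l hφ hφ' hl hl' A B hA1 hA2 hB0 hBA hB G hG hinj hloc
    hend g hg h0 h1 hav hlegP hlegQ hP hQ

end Pool.Agent.Results.MP_2fd4e2_co.WildClosure
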